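import Pool.Agent.Run7.h937.Main

set_option autoImplicit false

/-!
# Systems of equations in one unknown over free pro-`p` groups

`F` is a free pro-`p` group on a set `X` converging to `1` (any cardinality), exactly as in the
frozen statement.  A system of equations over `F` is equivalent to a finite subsystem if it is a
system in ONE unknown or, more generally, if at each of its solutions every unknown is locally
free or locally algebraic over unknowns of smaller rank.
-/

namespace Pool.Agent.Results.MP_23c465_al.OneUnknown

/-- An equation over `F` in `n` unknowns, as in the frozen statement: a function `F ^ n → F` which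
is a uniform limit of words with constants. -/
def IsEquation {F : Type} [Group F] [TopologicalSpace F] {n : ℕ} (e : (Fin n → F) → F) : Prop :=
  ∀ U ∈ nhds (1 : F), ∃ w ∈ Subgroup.closure
      (Set.range (fun c : F => fun _ : Fin n → F => c) ∪
        Set.range (fun i : Fin n => fun g : Fin n → F => g i)),
    ∀ g : Fin n → F, (w g)⁻¹ * e g ∈ U

/-- `S` has the same solutions as one of its finite subsets (as in the frozen statement). -/
def EquivalentToFinite {F : Type} [Group F] {n : ℕ} (S : Set ((Fin n → F) → F)) : Prop :=
  ∃ S0 : Finset ((Fin n → F) → F), (↑S0 : Set ((Fin n → F) → F)) ⊆ S ∧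
    {g : Fin n → F | ∀ e ∈ S, e g = 1} = {g : Fin n → F | ∀ e ∈ S0, e g = 1}

/-- The unknowns of `S` are free or algebraic at the tuple `g`: there are a neighbourhood `W` of
`g`, a finite subset `T` of `S` and ranks `r` of the unknowns such that each unknown `l` is
* free: whether a point of `W` satisfies an equation of `S` does not change when its coordinate `l`
  is replaced by the coordinate `l` of `g`; or
* algebraic: some equation `e` over `F` is satisfied by all solutions of `T` in `W`, depends only on
  the unknown `l` and on the unknowns of rank smaller than the rank of `l`, and is not identically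
  `1` as a function of the unknown `l` when the other unknowns take their values in `g`. -/
def FreeOrAlgebraicAt {F : Type} [Group F] [TopologicalSpace F] {n : ℕ}
    (S : Set ((Fin n → F) → F)) (g : Fin n → F) : Prop :=
  ∃ W ∈ nhds g, ∃ T : Finset ((Fin n → F) → F), (↑T : Set ((Fin n → F) → F)) ⊆ S ∧
    ∃ r : Fin n → ℕ, ∀ l : Fin n,
      (∀ e ∈ S, ∀ a ∈ W, (e a = 1 ↔ e (Function.update a l (g l)) = 1)) ∨
      ∃ e : (Fin n → F) → F, IsEquation e ∧
        (∀ a ∈ W, (∀ e' ∈ T, e' a = 1) → e a = 1) ∧
        (∀ a b : Fin n → F, a l = b l → (∀ j, r j < r l → a j = b j) → e a = e b) ∧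
        ∃ y : F, e (Function.update g l y) ≠ 1

open Run7.h937 in
/-- Let `F` be free pro-`p` on a set converging to `1`.  A system of equations over `F` in `n`
unknowns is equivalent to a finite subsystem if `n = 1` or, for any `n`, if at each solution its
unknowns are free or algebraic. -/
theorem result :
    ∀ (p : ℕ), p.Prime →
    ∀ (X : Type) (F : Type) [Group F] [TopologicalSpace F] [IsTopologicalGroup F]
      [CompactSpace F] [T2Space F] [TotallyDisconnectedSpace F] (ι : X → F),
    (∀ N : Subgroup F, IsOpen (N : Set F) → N.Normal → ∃ k : ℕ, N.index = p ^ k) →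
    Filter.Tendsto ι Filter.cofinite (nhds 1) →
    (∀ (P : Type) [Group P] [Finite P], (∃ k : ℕ, Nat.card P = p ^ k) →
      ∀ f : X → P, Set.Finite {x : X | f x ≠ 1} →
        ∃! φ : F →* P, IsOpen (φ.ker : Set F) ∧ ∀ x : X, φ (ι x) = f x) →
    ∀ n : ℕ, ∀ S : Set ((Fin n → F) → F), (∀ e ∈ S, IsEquation e) →
      (n = 1 ∨ ∀ g : Fin n → F, (∀ e ∈ S, e g = 1) → FreeOrAlgebraicAt S g) →
      EquivalentToFinite S := by
  intro p hp X F _ _ _ _ _ _ ι h1 h2 h3 n S hS hT
  have : Fact p.Prime := ⟨hp⟩
  have h : FP p X F ι := ⟨h1, h2, h3⟩
  rcases hT with rfl | hT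
  · refine main h S hS fun g _ => ?_
    by_cases hne : ∃ e ∈ S, ∃ y : Fin 1 → F, e y ≠ 1
    · obtain ⟨e, he, y, hy⟩ := hne
      refine ⟨Set.univ, Filter.univ_mem, {e}, ?_, fun _ => 0,
        fun l => Or.inr ⟨e, hS e he, ?_, ?_, y l, ?_⟩⟩
      · rw [Finset.coe_singleton, Set.singleton_subset_iff]
        exact he
      · intro a _ ha
        exact ha e (Finset.mem_singleton_self e)
      · intro a b hab _
        have : a = b := by
          funext i
          rw [Subsingleton.elim i l]
          exact hab
        rw [this]
      · have : Function.update g l (y l) = y := by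
          funext i
          rw [Subsingleton.elim i l, Function.update_self]
        rw [this]
        exact hy
    · push Not at hne
      refine ⟨Set.univ, Filter.univ_mem, ∅, by simp, fun _ => 0, fun l => Or.inl ?_⟩
      intro e he a _
      rw [hne e he, hne e he]
  · exact main h S hS hT

end Pool.Agent.Results.MP_23c465_al.OneUnknown
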